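import Pool.Agent.Helper15.EP.St

set_option autoImplicit false

/-!
# Project EP, module CNC (counting the good pairs of patterns of length three)
-/

open Polynomial Pool.Agent.Helper15.FC Pool.Agent.Helper15.EP

namespace Pool.Agent.Helper28.EP

open scoped Classical

private lemma cnc_TT (p r : ℕ) : TT p r ≤ 144 := by
  unfold TT; omega

private lemma cnc_small (n : ℕ) (ε : ℝ) (hε : 0 < ε) (i : Fin 3) :
    (((Finset.Nat.antidiagonalTuple 3 n).filter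
      (fun x => ((x i : ℕ) : ℝ) < ε * n)).card : ℝ) ≤ (ε * n + 1) * (n + 1) := by
  have h1 : ((Finset.Nat.antidiagonalTuple 3 n).filter
      (fun x => ((x i : ℕ) : ℝ) < ε * n)).card ≤
      (Finset.range ⌈ε * n⌉₊ ×ˢ Finset.range (n + 1)).card := by
    refine Finset.card_le_card_of_injOn (fun x => (x i, x (i + 1))) ?_ ?_
    · intro x hx
      have hx' := Finset.mem_filter.1 (Finset.mem_coe.1 hx)
      have hs := Finset.Nat.mem_antidiagonalTuple.1 hx'.1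
      refine Finset.mem_coe.2 (Finset.mem_product.2 ⟨?_, ?_⟩)
      · exact Finset.mem_range.2 (Nat.lt_ceil.2 hx'.2)
      · have : x (i + 1) ≤ ∑ j, x j :=
          Finset.single_le_sum (f := x) (fun _ _ => Nat.zero_le _) (Finset.mem_univ _)
        exact Finset.mem_range.2 (show x (i + 1) < n + 1 by omega)
    · intro x hx y hy hxy
      have hx' := Finset.Nat.mem_antidiagonalTuple.1 (Finset.mem_filter.1 (Finset.mem_coe.1 hx)).1
      have hy' := Finset.Nat.mem_antidiagonalTuple.1 (Finset.mem_filter.1 (Finset.mem_coe.1 hy)).1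
      rw [Fin.sum_univ_three] at hx' hy'
      have e1 : x i = y i := congrArg Prod.fst hxy
      have e2 : x (i + 1) = y (i + 1) := congrArg Prod.snd hxy
      funext j
      fin_cases i <;> fin_cases j <;> simp at e1 e2 ⊢ <;> omega
  have h2 : ((⌈ε * n⌉₊ : ℕ) : ℝ) ≤ ε * n + 1 := (Nat.ceil_lt_add_one (by positivity)).le
  have h3 : (((Finset.Nat.antidiagonalTuple 3 n).filter
      (fun x => ((x i : ℕ) : ℝ) < ε * n)).card : ℝ) ≤
      ((Finset.range ⌈ε * n⌉₊ ×ˢ Finset.range (n + 1)).card : ℝ) := by exact_mod_cast h1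
  rw [Finset.card_product, Finset.card_range, Finset.card_range] at h3
  push_cast at h3
  refine h3.trans ?_
  exact mul_le_mul_of_nonneg_right h2 (by positivity)

private lemma cnc_union (n : ℕ) (ε : ℝ) (hε : 0 < ε) :
    (((Finset.Nat.antidiagonalTuple 3 n).filter
      (fun x => ¬ ∀ i, ε * n ≤ ((x i : ℕ) : ℝ))).card : ℝ) ≤ 3 * ((ε * n + 1) * (n + 1)) := by
  have h1 : (Finset.Nat.antidiagonalTuple 3 n).filter
      (fun x => ¬ ∀ i, ε * n ≤ ((x i : ℕ) : ℝ)) ⊆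
      (Finset.univ : Finset (Fin 3)).biUnion (fun i => (Finset.Nat.antidiagonalTuple 3 n).filter
      (fun x => ((x i : ℕ) : ℝ) < ε * n)) := by
    intro x hx
    rw [Finset.mem_filter] at hx
    obtain ⟨hx1, hx2⟩ := hx
    push Not at hx2
    obtain ⟨i, hi⟩ := hx2
    exact Finset.mem_biUnion.2 ⟨i, Finset.mem_univ _, Finset.mem_filter.2 ⟨hx1, hi⟩⟩
  have h2 := (Finset.card_le_card h1).trans Finset.card_biUnion_le
  have h3 : (((Finset.Nat.antidiagonalTuple 3 n).filter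
      (fun x => ¬ ∀ i, ε * n ≤ ((x i : ℕ) : ℝ))).card : ℝ) ≤
      ∑ i : Fin 3, (((Finset.Nat.antidiagonalTuple 3 n).filter
      (fun x => ((x i : ℕ) : ℝ) < ε * n)).card : ℝ) := by exact_mod_cast h2
  refine h3.trans ?_
  refine (Finset.sum_le_sum (fun i _ => cnc_small n ε hε i)).trans ?_
  simp

private lemma cnc_sum (hCC1 : StCC1) (n : ℕ) (ε : ℝ) (hε : 0 < ε) (hn : 1 ≤ ε * n) :
    ∑ p ∈ Finset.range 49, ∑ r ∈ Finset.range 49, ((n : ℝ) / 144 + 1) ^ 2 *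
      ((n : ℝ) * TT p r / 864 + ε * n + 1) * ((n : ℝ) * TT r p / 864 + ε * n + 1) ≤
    (n : ℝ) ^ 4 * (1 / 144 + ε) ^ 2 *
      (3900000 / 864 ^ 2 + 2401 * (2 / 3 * ε + 4 * ε ^ 2)) := by
  have hn0 : (0 : ℝ) ≤ n := Nat.cast_nonneg n
  have hS : ∑ p ∈ Finset.range 49, ∑ r ∈ Finset.range 49, ((TT p r : ℝ) * TT r p) ≤ 3900000 := by
    have := hCC1
    unfold StCC1 at this
    exact_mod_cast this
  have hterm : ∀ p r : ℕ, ((n : ℝ) / 144 + 1) ^ 2 *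
      ((n : ℝ) * TT p r / 864 + ε * n + 1) * ((n : ℝ) * TT r p / 864 + ε * n + 1) ≤
      (n : ℝ) ^ 4 * (1 / 144 + ε) ^ 2 * ((TT p r : ℝ) * TT r p / 864 ^ 2 +
        (2 / 3 * ε + 4 * ε ^ 2)) := by
    intro p r
    have a1 : ((n : ℝ) / 144 + 1) ^ 2 ≤ (n * (1 / 144 + ε)) ^ 2 := by
      apply pow_le_pow_left₀ (by positivity)
      nlinarith
    have a2 : (n : ℝ) * TT p r / 864 + ε * n + 1 ≤ n * (TT p r / 864 + 2 * ε) := by
      linarith
    have a3 : (n : ℝ) * TT r p / 864 + ε * n + 1 ≤ n * (TT r p / 864 + 2 * ε) := by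
      linarith
    have b1 : (TT p r : ℝ) ≤ 144 := by exact_mod_cast cnc_TT p r
    have b2 : (TT r p : ℝ) ≤ 144 := by exact_mod_cast cnc_TT r p
    have c1 : ((TT p r : ℝ) / 864 + 2 * ε) * (TT r p / 864 + 2 * ε) ≤
        (TT p r : ℝ) * TT r p / 864 ^ 2 + (2 / 3 * ε + 4 * ε ^ 2) := by
      nlinarith [mul_le_mul_of_nonneg_right b1 hε.le, mul_le_mul_of_nonneg_right b2 hε.le]
    calc ((n : ℝ) / 144 + 1) ^ 2 *
        ((n : ℝ) * TT p r / 864 + ε * n + 1) * ((n : ℝ) * TT r p / 864 + ε * n + 1)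
        ≤ (n * (1 / 144 + ε)) ^ 2 * (n * (TT p r / 864 + 2 * ε)) *
          (n * (TT r p / 864 + 2 * ε)) := by
          gcongr
      _ = (n : ℝ) ^ 4 * (1 / 144 + ε) ^ 2 *
          (((TT p r : ℝ) / 864 + 2 * ε) * (TT r p / 864 + 2 * ε)) := by ring
      _ ≤ _ := mul_le_mul_of_nonneg_left c1 (by positivity)
  refine (Finset.sum_le_sum (fun p _ => Finset.sum_le_sum (fun r _ => hterm p r))).trans ?_
  simp only [← Finset.mul_sum]
  refine mul_le_mul_of_nonneg_left ?_ (by positivity)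
  simp only [Finset.sum_add_distrib, ← Finset.sum_div, Finset.sum_const, Finset.card_range,
    nsmul_eq_mul]
  have : (∑ p ∈ Finset.range 49, ∑ r ∈ Finset.range 49, ((TT p r : ℝ) * TT r p)) / 864 ^ 2 ≤
      3900000 / 864 ^ 2 := by gcongr
  push_cast
  nlinarith [this]

theorem hCNC (hCC1 : StCC1) (hCC2 : StCC2) (hCC3 : StCC3) (hCN1 : StCN1) (_hCN2 : StCN2) :
    StCNC := by
  refine ⟨1 / 1000000, 1000000, by norm_num, ?_⟩
  intro n hn
  have hε : (0 : ℝ) < 1 / 1000000 := by norm_num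
  have hnR : (1000000 : ℝ) ≤ n := by exact_mod_cast hn
  have hn1 : (1 : ℝ) ≤ 1 / 1000000 * n := by linarith
  obtain ⟨A, hA⟩ : ∃ A, A = Finset.Nat.antidiagonalTuple 3 n := ⟨_, rfl⟩
  obtain ⟨ε, hεe⟩ : ∃ ε : ℝ, ε = 1 / 1000000 := ⟨_, rfl⟩
  rw [← hεe] at hε hn1
  have hcard : (A.card : ℝ) = ((n : ℝ) + 2) * (n + 1) / 2 := by
    have h := hCN1 2 n
    rw [hA, h, Nat.cast_choose_two]
    push_cast
    ring
  -- the three parts of the bad pairs
  have hx : (((A ×ˢ A).filter (fun p : (Fin 3 → ℕ) × (Fin 3 → ℕ) =>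
      ¬ ∀ i, ε * n ≤ ((p.1 i : ℕ) : ℝ))).card : ℝ) ≤
      3 * ((ε * n + 1) * (n + 1)) * A.card := by
    have h1 : (A ×ˢ A).filter (fun p : (Fin 3 → ℕ) × (Fin 3 → ℕ) =>
      ¬ ∀ i, ε * n ≤ ((p.1 i : ℕ) : ℝ)) =
      (A.filter (fun x => ¬ ∀ i, ε * n ≤ ((x i : ℕ) : ℝ))) ×ˢ A := by
      ext p
      simp only [Finset.mem_filter, Finset.mem_product]
      tauto
    rw [h1, Finset.card_product]
    push_cast
    have h2 := cnc_union n ε hε
    rw [← hA] at h2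
    exact mul_le_mul_of_nonneg_right h2 (by positivity)
  have hy : (((A ×ˢ A).filter (fun p : (Fin 3 → ℕ) × (Fin 3 → ℕ) =>
      ¬ ∀ i, ε * n ≤ ((p.2 i : ℕ) : ℝ))).card : ℝ) ≤
      3 * ((ε * n + 1) * (n + 1)) * A.card := by
    have h1 : (A ×ˢ A).filter (fun p : (Fin 3 → ℕ) × (Fin 3 → ℕ) =>
      ¬ ∀ i, ε * n ≤ ((p.2 i : ℕ) : ℝ)) =
      A ×ˢ (A.filter (fun x => ¬ ∀ i, ε * n ≤ ((x i : ℕ) : ℝ))) := by
      ext p
      simp only [Finset.mem_filter, Finset.mem_product]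
      tauto
    rw [h1, Finset.card_product]
    push_cast
    have h2 := cnc_union n ε hε
    rw [← hA] at h2
    rw [mul_comm]
    exact mul_le_mul_of_nonneg_right h2 (by positivity)
  have hz : (((A ×ˢ A).filter (fun p : (Fin 3 → ℕ) × (Fin 3 → ℕ) =>
      (∀ i, ε * n ≤ ((p.1 i : ℕ) : ℝ)) ∧ (∀ j, ε * n ≤ ((p.2 j : ℕ) : ℝ)) ∧
      ¬ Good ε n p.1 p.2)).card : ℝ) ≤
      36 * ((n : ℝ) ^ 4 * (1 / 144 + ε) ^ 2 *
      (3900000 / 864 ^ 2 + 2401 * (2 / 3 * ε + 4 * ε ^ 2))) := by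
    have h1 := hCC2 ε n hε
    have h2 := hCC3 ε n hε
    have h3 := cnc_sum hCC1 n ε hε hn1
    rw [hA]
    have h1' := (Nat.cast_le (α := ℝ)).2 h1
    rw [Nat.cast_mul] at h1'
    refine h1'.trans ?_
    rw [Nat.cast_ofNat]
    exact mul_le_mul_of_nonneg_left (h2.trans h3) (by norm_num)
  have htot : (A ×ˢ A).card ≤ ((A ×ˢ A).filter (fun p : (Fin 3 → ℕ) × (Fin 3 → ℕ) =>
      Good ε n p.1 p.2)).card + (((A ×ˢ A).filter (fun p : (Fin 3 → ℕ) × (Fin 3 → ℕ) =>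
      ¬ ∀ i, ε * n ≤ ((p.1 i : ℕ) : ℝ))).card + (((A ×ˢ A).filter
      (fun p : (Fin 3 → ℕ) × (Fin 3 → ℕ) => ¬ ∀ i, ε * n ≤ ((p.2 i : ℕ) : ℝ))).card +
      ((A ×ˢ A).filter (fun p : (Fin 3 → ℕ) × (Fin 3 → ℕ) =>
      (∀ i, ε * n ≤ ((p.1 i : ℕ) : ℝ)) ∧ (∀ j, ε * n ≤ ((p.2 j : ℕ) : ℝ)) ∧
      ¬ Good ε n p.1 p.2)).card)) := by
    refine (Finset.card_le_card (t := _ ∪ (_ ∪ (_ ∪ _))) ?_).trans
      ((Finset.card_union_le _ _).trans (Nat.add_le_add_left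
        ((Finset.card_union_le _ _).trans (Nat.add_le_add_left
          (Finset.card_union_le _ _) _)) _))
    intro p hp
    simp only [Finset.mem_union, Finset.mem_filter]
    tauto
  have htot' := (Nat.cast_le (α := ℝ)).2 htot
  push_cast at htot'
  rw [Finset.card_product] at htot'
  push_cast at htot'
  rw [hcard] at htot' hx hy
  rw [← hA, ← hεe]
  have hfin : (961 / 1000 : ℝ) * ((n : ℝ) ^ 4 / 4) +
      (3 * ((ε * n + 1) * (n + 1)) * (((n : ℝ) + 2) * (n + 1) / 2)) * 2 +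
      36 * ((n : ℝ) ^ 4 * (1 / 144 + ε) ^ 2 *
      (3900000 / 864 ^ 2 + 2401 * (2 / 3 * ε + 4 * ε ^ 2))) ≤
      (((n : ℝ) + 2) * (n + 1) / 2) * (((n : ℝ) + 2) * (n + 1) / 2) := by
    have q1 : (3 * ((ε * n + 1) * (n + 1)) * (((n : ℝ) + 2) * (n + 1) / 2)) * 2 ≤
        1 / 100000 * (n : ℝ) ^ 4 := by
      have r1 : ε * n + 1 ≤ 2 * ε * n := by linarith
      have r2 : (n : ℝ) + 1 ≤ 1001 / 1000 * n := by linarith
      have r3 : (n : ℝ) + 2 ≤ 1001 / 1000 * n := by linarith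
      calc (3 * ((ε * n + 1) * (n + 1)) * (((n : ℝ) + 2) * (n + 1) / 2)) * 2
          ≤ (3 * ((2 * ε * n) * (1001 / 1000 * n)) *
            ((1001 / 1000 * n) * (1001 / 1000 * n) / 2)) * 2 := by
            gcongr
        _ = (6 * ε * (1001 / 1000) ^ 3) * (n : ℝ) ^ 4 := by ring
        _ ≤ 1 / 100000 * (n : ℝ) ^ 4 := by
            refine mul_le_mul_of_nonneg_right ?_ (by positivity)
            rw [hεe]; norm_num
    have q2 : 36 * ((n : ℝ) ^ 4 * (1 / 144 + ε) ^ 2 *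
      (3900000 / 864 ^ 2 + 2401 * (2 / 3 * ε + 4 * ε ^ 2))) ≤ 91 / 10000 * (n : ℝ) ^ 4 := by
      have : 36 * ((1 / 144 + ε) ^ 2 *
          (3900000 / 864 ^ 2 + 2401 * (2 / 3 * ε + 4 * ε ^ 2))) ≤ 91 / 10000 := by
        rw [hεe]; norm_num
      calc 36 * ((n : ℝ) ^ 4 * (1 / 144 + ε) ^ 2 *
          (3900000 / 864 ^ 2 + 2401 * (2 / 3 * ε + 4 * ε ^ 2)))
          = (36 * ((1 / 144 + ε) ^ 2 *
            (3900000 / 864 ^ 2 + 2401 * (2 / 3 * ε + 4 * ε ^ 2)))) * (n : ℝ) ^ 4 := by ring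
        _ ≤ _ := mul_le_mul_of_nonneg_right this (by positivity)
    have q3 : (n : ℝ) ^ 4 / 4 ≤
        (((n : ℝ) + 2) * (n + 1) / 2) * (((n : ℝ) + 2) * (n + 1) / 2) := by
      have hn0 : (0 : ℝ) ≤ n := Nat.cast_nonneg n
      have s1 : (n : ℝ) ^ 2 / 2 ≤ (((n : ℝ) + 2) * (n + 1) / 2) := by nlinarith
      calc (n : ℝ) ^ 4 / 4 = ((n : ℝ) ^ 2 / 2) * ((n : ℝ) ^ 2 / 2) := by ring
        _ ≤ _ := mul_le_mul s1 s1 (by positivity) (by positivity)
    have hn4 : (0 : ℝ) ≤ (n : ℝ) ^ 4 := by positivity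
    linarith
  linarith

end Pool.Agent.Helper28.EP
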